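import Pool.Agent.H50.NC.Targets

set_option autoImplicit false

namespace Pool.Agent.H61.NCK

open Pool.Agent.H48.ER Pool.Agent.H50.NC

theorem pf_PSF (hEXZ : T_EXZ) : T_PSF := by
  intro V G a b n P i f S X r t x z hE hSX hfi hPf hx hz hno
  obtain ⟨hP, hev⟩ := hE
  have hxS : x ∉ S := by obtain ⟨R, _, _, h, _⟩ := hx; exact h
  have hzS : z ∉ S := by obtain ⟨R, _, _, h, _⟩ := hz; exact h
  rcases hEXZ V G (n i) r t (a i) (b i) x z (P i) S (hP.ip i) hx hz with
    ⟨-, h⟩ | h | ⟨hxz, hadj, R, T, hR, hRP, hRS, hT, hTP, hTS, hd, hne⟩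
  · rw [h]; exact hev i
  · exact absurd h hno
  · have haR : a i ∈ R := hR.left_mem
    have hbT : b i ∈ T := hT.left_mem
    have hbR : ∀ u ∈ R, u ≠ b i := fun u hu h => Set.disjoint_left.1 hd hu (h ▸ hbT)
    have haT : ∀ u ∈ T, u ≠ a i := fun u hu h => Set.disjoint_left.1 hd haR (h ▸ hu)
    have hd1 : Disjoint R (P f) := Set.disjoint_left.2 fun u hu hu2 =>
      Set.disjoint_left.1 (hP.dis i f hfi.symm) (hRP hu) hu2
    have he1 : XE G R (P f) (a i) (a f) := by
      intro u hu v hv
      rw [hP.adj i f hfi.symm u (hRP hu) v hv]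
      constructor
      · rintro (h | h)
        · exact h
        · exact absurd h.1 (hbR u hu)
      · exact Or.inl
    have p1 := hR.rev.append (hP.ip f) hd1 he1
    have hd2 : Disjoint (R ∪ P f) T := Set.disjoint_left.2 fun u hu hu2 => by
      rcases hu with hu | hu
      · exact Set.disjoint_left.1 hd hu hu2
      · exact Set.disjoint_left.1 (hP.dis f i hfi) hu (hTP hu2)
    have he2 : XE G (R ∪ P f) T (b f) (b i) := by
      intro u hu v hv
      rcases hu with hu | hu
      · constructor
        · intro h; exact absurd h (hne u hu v hv)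
        · rintro ⟨h, -⟩
          exact absurd (hP.b_mem f) (fun h2 => Set.disjoint_left.1 hd1 hu (h ▸ h2))
      · rw [hP.adj f i hfi u hu v (hTP hv)]
        constructor
        · rintro (h | h)
          · exact absurd h.2 (haT v hv)
          · exact h
        · exact Or.inr
    have p2 := p1.append hT hd2 he2
    have hall : ∀ v ∈ R ∪ P f ∪ T, v = x ∨ v = z ∨ v ∈ S := by
      rintro v ((hv | hv) | hv)
      · rcases hRS v hv with h | h
        · exact Or.inl h
        · exact Or.inr (Or.inr h)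
      · exact Or.inr (Or.inr (hPf hv))
      · rcases hTS v hv with h | h
        · exact Or.inr (Or.inl h)
        · exact Or.inr (Or.inr h)
    have hnb : Nb G S x ∧ Nb G S z := by
      obtain ⟨g, g0, gn, gi, ga, hQ⟩ := p2
      refine ⟨⟨hxS, g 1, ?_, ?_⟩, ⟨hzS, g (r + n f + 1 + t), ?_, ?_⟩⟩
      · have h1 : g 1 ∈ R ∪ P f ∪ T := by rw [hQ]; exact ⟨1, by omega, rfl⟩
        have h2 : G.Adj (g 0) (g 1) := (ga 0 1 (by omega) (by omega)).2 (Or.inl rfl)
        rw [g0] at h2
        rcases hall _ h1 with h | h | h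
        · exact absurd h h2.ne'
        · exact absurd (h ▸ h2) hadj
        · exact h
      · have h2 : G.Adj (g 0) (g 1) := (ga 0 1 (by omega) (by omega)).2 (Or.inl rfl)
        rwa [g0] at h2
      · have h1 : g (r + n f + 1 + t) ∈ R ∪ P f ∪ T := by rw [hQ]; exact ⟨_, by omega, rfl⟩
        have h2 : G.Adj (g (r + n f + 1 + t)) (g (r + n f + 1 + t + 1)) :=
          (ga _ _ (by omega) (by omega)).2 (Or.inl rfl)
        rw [gn] at h2
        rcases hall _ h1 with h | h | h
        · exact absurd (h ▸ h2) hadj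
        · exact absurd h h2.ne
        · exact h
      · have h2 : G.Adj (g (r + n f + 1 + t)) (g (r + n f + 1 + t + 1)) :=
          (ga _ _ (by omega) (by omega)).2 (Or.inl rfl)
        rw [gn] at h2
        exact h2.symm
    have h3 := hSX.ev _ x z _ hnb.1 hnb.2 hadj p2 hall
    have h4 := hev f
    obtain ⟨k, hk⟩ := h3
    obtain ⟨l, hl⟩ := h4
    exact ⟨k - l - 1, by omega⟩

end Pool.Agent.H61.NCK
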